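import Pool.Agent.SLW.Targets

/-!
# SLW-BDD: `bb` is bounded, measurable and `bb y * exp y` is monotone (helper53)
-/

set_option autoImplicit false

open MeasureTheory Filter Topology

namespace SLW

namespace BDD_

lemma psa_nonneg (m u : ℕ) (x : ℝ) : 0 ≤ psa m u x := by
  unfold psa
  apply Finset.sum_nonneg
  intro n _
  split_ifs
  · exact ArithmeticFunction.vonMangoldt_nonneg
  · exact le_rfl

lemma psa_le (m u : ℕ) (x : ℝ) : psa m u x ≤ Chebyshev.psi x := by
  unfold psa
  rw [Chebyshev.psi_eq_sum_Icc]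
  have h1 : ∑ n ∈ Finset.Icc 1 ⌊x⌋₊,
      (if n ≡ u [MOD m] then ArithmeticFunction.vonMangoldt n else 0) ≤
      ∑ n ∈ Finset.Icc 1 ⌊x⌋₊, ArithmeticFunction.vonMangoldt n := by
    apply Finset.sum_le_sum
    intro n _
    split_ifs
    · exact le_rfl
    · exact ArithmeticFunction.vonMangoldt_nonneg
  refine h1.trans ?_
  apply Finset.sum_le_sum_of_subset_of_nonneg
  · intro n hn
    simp only [Finset.mem_Icc] at hn ⊢
    omega
  · intro n _ _
    exact ArithmeticFunction.vonMangoldt_nonneg

lemma psa_mono (m u : ℕ) : Monotone (psa m u) := by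
  intro x y hxy
  unfold psa
  apply Finset.sum_le_sum_of_subset_of_nonneg
  · apply Finset.Icc_subset_Icc le_rfl (Nat.floor_mono hxy)
  · intro n _ _
    split_ifs
    · exact ArithmeticFunction.vonMangoldt_nonneg
    · exact le_rfl

lemma bb_mul_exp (m u : ℕ) (y : ℝ) : bb m u y * Real.exp y = psa m u (Real.exp y) := by
  unfold bb
  rw [mul_assoc, ← Real.exp_add, neg_add_cancel, Real.exp_zero, mul_one]

end BDD_

open BDD_ in
theorem p_BDD : T_BDD := by
  refine ⟨⟨Real.log 4 + 4, by positivity, fun m u y => ⟨?_, ?_⟩⟩, fun m u => ⟨?_, ?_⟩⟩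
  · exact mul_nonneg (psa_nonneg m u _) (Real.exp_pos _).le
  · have h1 := (psa_le m u (Real.exp y)).trans
      (Chebyshev.psi_le_const_mul_self (Real.exp_pos y).le)
    have h2 : bb m u y ≤ (Real.log 4 + 4) * Real.exp y * Real.exp (-y) :=
      mul_le_mul_of_nonneg_right h1 (Real.exp_pos _).le
    rwa [mul_assoc, ← Real.exp_add, add_neg_cancel, Real.exp_zero, mul_one] at h2
  · have : Measurable fun y : ℝ => psa m u (Real.exp y) :=
      (psa_mono m u).measurable.comp Real.measurable_exp
    exact this.mul (Real.measurable_exp.comp measurable_neg)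
  · intro x y hxy
    simp only [bb_mul_exp]
    exact psa_mono m u (Real.exp_le_exp.mpr hxy)

end SLW
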