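import Pool.Agent.SLW.Targets

/-!
FE1: Fubini for the Fejer kernel
-/

set_option autoImplicit false

open MeasureTheory Filter Topology

namespace SLW

namespace FE1_

/-- the two-variable integrand -/
noncomputable def F (f : ℝ → ℝ) (lam σ x : ℝ) (y s : ℝ) : ℂ :=
  ((f y * Real.exp (-(σ * y)) : ℝ) : ℂ) * (((lam / 2 : ℝ) : ℂ) * (((1 - |s| : ℝ) : ℂ) *
    Complex.exp (Complex.I * ((lam * s * (x - y) : ℝ) : ℂ))))

theorem measurable_F {f : ℝ → ℝ} (hf : Measurable f) (lam σ x : ℝ) :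
    Measurable (Function.uncurry (F f lam σ x)) := by
  have h1 : Measurable fun p : ℝ × ℝ => f p.1 := hf.comp measurable_fst
  have h2 : Measurable fun p : ℝ × ℝ => f p.1 * Real.exp (-(σ * p.1)) :=
    h1.mul (by fun_prop)
  have h3 : Measurable fun p : ℝ × ℝ => ((f p.1 * Real.exp (-(σ * p.1)) : ℝ) : ℂ) :=
    Complex.measurable_ofReal.comp h2
  have h4 : Measurable fun p : ℝ × ℝ => (((lam / 2 : ℝ) : ℂ) * (((1 - |p.2| : ℝ) : ℂ) *
      Complex.exp (Complex.I * ((lam * p.2 * (x - p.1) : ℝ) : ℂ)))) := by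
    apply Continuous.measurable
    fun_prop
  exact h3.mul h4

theorem norm_F_le {f : ℝ → ℝ} {C : ℝ} (hC : ∀ y, |f y| ≤ C) {lam : ℝ} (hlam : 0 < lam)
    (σ x y s : ℝ) (hs : s ∈ Set.Ioc (-1 : ℝ) 1) :
    ‖F f lam σ x y s‖ ≤ C * Real.exp (-(σ * y)) * (lam / 2) := by
  have hC0 : 0 ≤ C := (abs_nonneg _).trans (hC 0)
  have h1 : ‖Complex.exp (Complex.I * ((lam * s * (x - y) : ℝ) : ℂ))‖ = 1 := by
    rw [mul_comm, Complex.norm_exp_ofReal_mul_I]
  have h2 : abs (1 - |s|) ≤ 1 := by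
    have h3 : |s| ≤ 1 := abs_le.mpr ⟨hs.1.le, hs.2⟩
    rw [abs_le]
    constructor <;> linarith [abs_nonneg s]
  unfold F
  rw [norm_mul, norm_mul, norm_mul, h1, mul_one, Complex.norm_real, Complex.norm_real,
    Complex.norm_real, Real.norm_eq_abs, Real.norm_eq_abs, Real.norm_eq_abs, abs_mul,
    abs_of_pos (Real.exp_pos _), abs_of_pos (half_pos hlam)]
  calc |f y| * Real.exp (-(σ * y)) * (lam / 2 * abs (1 - |s|))
      ≤ C * Real.exp (-(σ * y)) * (lam / 2 * 1) := by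
        gcongr
        exact hC y
    _ = C * Real.exp (-(σ * y)) * (lam / 2) := by ring

theorem integrable_F {f : ℝ → ℝ} (hf : Measurable f) {C : ℝ} (hC : ∀ y, |f y| ≤ C) {lam : ℝ}
    (hlam : 0 < lam) {σ : ℝ} (hσ : 0 < σ) (x : ℝ) :
    Integrable (Function.uncurry (F f lam σ x))
      ((volume.restrict (Set.Ioi (0 : ℝ))).prod (volume.restrict (Set.Ioc (-1 : ℝ) 1))) := by
  have h1 : Integrable (fun y : ℝ => C * Real.exp (-(σ * y)) * (lam / 2))
      (volume.restrict (Set.Ioi (0 : ℝ))) := by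
    have h2 := exp_neg_integrableOn_Ioi (0 : ℝ) hσ
    have h3 : Integrable (fun y : ℝ => Real.exp (-(σ * y))) (volume.restrict (Set.Ioi (0 : ℝ))) := by
      refine h2.congr (Eventually.of_forall fun y => ?_)
      simp only [neg_mul]
    exact (h3.const_mul C).mul_const _
  have h4 : Integrable (fun _ : ℝ => (1 : ℝ)) (volume.restrict (Set.Ioc (-1 : ℝ) 1)) :=
    integrable_const _
  have h5 := h1.mul_prod h4
  refine h5.mono' (measurable_F hf lam σ x).aestronglyMeasurable ?_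
  rw [Measure.prod_restrict]
  rw [ae_restrict_iff' (measurableSet_Ioi.prod measurableSet_Ioc)]
  refine Eventually.of_forall fun p hp => ?_
  have h6 := norm_F_le hC hlam σ x p.1 p.2 hp.2
  simpa [Function.uncurry] using h6

theorem inner_s (h2 : T_KFT) (f : ℝ → ℝ) (lam σ x y : ℝ) (hlam : 0 < lam) (hy : y ≠ x) :
    ((f y * Real.exp (-(σ * y)) * (lam * fk (lam * (x - y))) : ℝ) : ℂ) =
      ∫ s in Set.Ioc (-1 : ℝ) 1, F f lam σ x y s := by
  have hv : lam * (x - y) ≠ 0 := mul_ne_zero hlam.ne' (sub_ne_zero.mpr hy.symm)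
  have h3 := h2 _ hv
  rw [intervalIntegral.integral_of_le (by norm_num)] at h3
  unfold F
  rw [integral_const_mul, integral_const_mul]
  have h4 : ∀ s : ℝ, ((lam * s * (x - y) : ℝ) : ℂ) = ((s * (lam * (x - y)) : ℝ) : ℂ) := by
    intro s
    congr 1
    ring
  simp only [h4]
  rw [show ((f y * Real.exp (-(σ * y)) * (lam * fk (lam * (x - y))) : ℝ) : ℂ) =
    ((f y * Real.exp (-(σ * y)) : ℝ) : ℂ) * ((lam : ℂ) * (fk (lam * (x - y)) : ℂ)) by push_cast; ring,
    h3]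
  push_cast
  ring

theorem inner_y (f : ℝ → ℝ) (g : ℂ → ℂ)
    (hL : ∀ z : ℂ, 0 < z.re → ∫ y in Set.Ioi (0 : ℝ), (f y : ℂ) * Complex.exp (-z * y) = g z)
    (lam σ x s : ℝ) (hσ : 0 < σ) :
    ∫ y in Set.Ioi (0 : ℝ), F f lam σ x y s =
      ((lam / 2 : ℝ) : ℂ) * (((1 - |s| : ℝ) : ℂ) * Complex.exp (Complex.I * (lam * s * x : ℝ)) *
        g (σ + Complex.I * (lam * s : ℝ))) := by
  have hre : 0 < ((σ : ℂ) + Complex.I * (lam * s : ℝ)).re := by
    simpa using hσ
  rw [← hL _ hre]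
  have h1 : ∀ y : ℝ, F f lam σ x y s = (((lam / 2 : ℝ) : ℂ) * (((1 - |s| : ℝ) : ℂ) *
      Complex.exp (Complex.I * (lam * s * x : ℝ)))) *
      ((f y : ℂ) * Complex.exp (-((σ : ℂ) + Complex.I * (lam * s : ℝ)) * y)) := by
    intro y
    unfold F
    have h2 : Complex.exp (Complex.I * ((lam * s * (x - y) : ℝ) : ℂ)) * Complex.exp (-(σ * y)) =
        Complex.exp (Complex.I * (lam * s * x : ℝ)) *
          Complex.exp (-((σ : ℂ) + Complex.I * (lam * s : ℝ)) * y) := by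
      rw [← Complex.exp_add, ← Complex.exp_add]
      congr 1
      push_cast
      ring
    calc ((f y * Real.exp (-(σ * y)) : ℝ) : ℂ) * (((lam / 2 : ℝ) : ℂ) * (((1 - |s| : ℝ) : ℂ) *
          Complex.exp (Complex.I * ((lam * s * (x - y) : ℝ) : ℂ)))) =
        ((lam / 2 : ℝ) : ℂ) * ((1 - |s| : ℝ) : ℂ) * (f y : ℂ) *
          (Complex.exp (Complex.I * ((lam * s * (x - y) : ℝ) : ℂ)) * Complex.exp (-(σ * y))) := by
          push_cast
          ring
      _ = _ := by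
          rw [h2]
          ring
  simp only [h1]
  rw [integral_const_mul]
  ring

end FE1_

open FE1_ in
theorem p_FE1 (_h1 : T_KNN) (h2 : T_KFT) : T_FE1 := by
  intro f g hf lam σ x hlam hσ
  obtain ⟨hfm, ⟨C, hC⟩, -, hL⟩ := hf
  have hswap := integral_integral_swap (integrable_F hfm hC hlam hσ x)
  have hne : ∀ᵐ y ∂(volume.restrict (Set.Ioi (0 : ℝ))), y ≠ x := by
    apply ae_restrict_of_ae
    exact Measure.ae_ne volume x
  calc ∫ y in Set.Ioi (0 : ℝ), ((f y * Real.exp (-(σ * y)) * (lam * fk (lam * (x - y))) : ℝ) : ℂ)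
      = ∫ y in Set.Ioi (0 : ℝ), ∫ s in Set.Ioc (-1 : ℝ) 1, F f lam σ x y s := by
        apply integral_congr_ae
        filter_upwards [hne] with y hy
        exact inner_s h2 f lam σ x y hlam hy
    _ = ∫ s in Set.Ioc (-1 : ℝ) 1, ∫ y in Set.Ioi (0 : ℝ), F f lam σ x y s := hswap
    _ = ∫ s in Set.Ioc (-1 : ℝ) 1, ((lam / 2 : ℝ) : ℂ) * (((1 - |s| : ℝ) : ℂ) *
        Complex.exp (Complex.I * (lam * s * x : ℝ)) * g (σ + Complex.I * (lam * s : ℝ))) := by
        congr 1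
        ext s
        exact inner_y f g hL lam σ x s hσ
    _ = _ := by
        rw [integral_const_mul, intervalIntegral.integral_of_le (by norm_num)]

end SLW
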