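import Pool.Agent.SLW.Targets

/-!
# FE2: the limit `σ → 0` in the Fubini identity
-/

set_option autoImplicit false

open MeasureTheory Filter Topology

namespace SLW

namespace FE2_

lemma integrable_kernel (h1 : T_KNN) (lam x : ℝ) (hlam : 0 < lam) :
    Integrable fun y : ℝ => lam * fk (lam * (x - y)) := by
  have h2 : Integrable fun y : ℝ => fk (lam * y) := h1.2.2.1.comp_mul_left' hlam.ne'
  have h3 : Integrable fun y : ℝ => fk (lam * (x - y)) := h2.comp_sub_left x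
  exact h3.const_mul lam

lemma left_lim (h1 : T_KNN) (f : ℝ → ℝ) (hf : Measurable f) (C : ℝ) (hC : ∀ y, |f y| ≤ C)
    (lam x : ℝ) (hlam : 0 < lam) (σ : ℕ → ℝ) (hσ0 : ∀ k, 0 < σ k)
    (hσ : Tendsto σ atTop (𝓝 0)) :
    Tendsto (fun k : ℕ => ∫ y in Set.Ioi (0 : ℝ),
      ((f y * Real.exp (-(σ k * y)) * (lam * fk (lam * (x - y))) : ℝ) : ℂ)) atTop
      (𝓝 (∫ y in Set.Ioi (0 : ℝ), ((f y * (lam * fk (lam * (x - y))) : ℝ) : ℂ))) := by
  have hk := h1.2.1
  have hC0 : 0 ≤ C := (abs_nonneg _).trans (hC 0)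
  refine tendsto_integral_of_dominated_convergence
    (fun y : ℝ => C * (lam * fk (lam * (x - y)))) ?_ ?_ ?_ ?_
  · intro k
    refine Measurable.aestronglyMeasurable ?_
    refine Complex.measurable_ofReal.comp ?_
    refine (hf.mul (by fun_prop)).mul ?_
    exact (hk.comp (by fun_prop)).const_mul lam
  · exact ((integrable_kernel h1 lam x hlam).const_mul C).integrableOn
  · intro k
    refine (ae_restrict_mem measurableSet_Ioi).mono fun y hy => ?_
    have hy0 : (0 : ℝ) < y := hy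
    rw [Complex.norm_real, Real.norm_eq_abs, abs_mul, abs_mul]
    have e1 : |Real.exp (-(σ k * y))| ≤ 1 := by
      rw [abs_of_pos (Real.exp_pos _), Real.exp_le_one_iff]
      have := mul_pos (hσ0 k) hy0
      linarith
    have e2 : |lam * fk (lam * (x - y))| = lam * fk (lam * (x - y)) :=
      abs_of_nonneg (mul_nonneg hlam.le (h1.1 _))
    rw [e2]
    refine mul_le_mul_of_nonneg_right ?_ (mul_nonneg hlam.le (h1.1 _))
    calc |f y| * |Real.exp (-(σ k * y))| ≤ C * 1 :=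
          mul_le_mul (hC y) e1 (abs_nonneg _) hC0
      _ = C := mul_one C
  · refine ae_of_all _ fun y => ?_
    have e1 : Tendsto (fun k : ℕ => f y * Real.exp (-(σ k * y)) * (lam * fk (lam * (x - y))))
        atTop (𝓝 (f y * Real.exp (-(0 * y)) * (lam * fk (lam * (x - y))))) := by
      refine Tendsto.mul_const _ (Tendsto.const_mul _ ?_)
      exact (Real.continuous_exp.tendsto _).comp ((hσ.mul_const y).neg)
    have e2 : f y * Real.exp (-(0 * y)) * (lam * fk (lam * (x - y))) =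
        f y * (lam * fk (lam * (x - y))) := by
      rw [zero_mul, neg_zero, Real.exp_zero, mul_one]
    rw [e2] at e1
    exact (Complex.continuous_ofReal.tendsto _).comp e1

lemma right_lim (g : ℂ → ℂ) (hg : ContinuousOn g {z : ℂ | 0 ≤ z.re})
    (lam x : ℝ) (σ : ℕ → ℝ) (hσ0 : ∀ k, 0 < σ k) (hσ1 : ∀ k, σ k ≤ 1)
    (hσ : Tendsto σ atTop (𝓝 0)) :
    Tendsto (fun k : ℕ => ∫ s in (-1 : ℝ)..1, ((1 - |s| : ℝ) : ℂ) *
      Complex.exp (Complex.I * (lam * s * x : ℝ)) * g ((σ k : ℝ) + Complex.I * (lam * s : ℝ)))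
      atTop (𝓝 (∫ s in (-1 : ℝ)..1, ((1 - |s| : ℝ) : ℂ) *
      Complex.exp (Complex.I * (lam * s * x : ℝ)) * g (Complex.I * (lam * s : ℝ)))) := by
  have hre : ∀ a s : ℝ, ((a : ℂ) + Complex.I * ((lam * s : ℝ) : ℂ)).re = a := by
    intro a s
    simp
  have hcont : ContinuousOn (fun q : ℝ × ℝ => g ((q.1 : ℂ) + Complex.I * ((lam * q.2 : ℝ) : ℂ)))
      (Set.Icc (0 : ℝ) 1 ×ˢ Set.Icc (-1 : ℝ) 1) := by
    refine hg.comp (Continuous.continuousOn (by fun_prop)) ?_
    rintro ⟨a, s⟩ ⟨ha, hs⟩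
    show 0 ≤ ((a : ℂ) + Complex.I * ((lam * s : ℝ) : ℂ)).re
    rw [hre]
    exact ha.1
  obtain ⟨M, hM⟩ := (isCompact_Icc.prod isCompact_Icc).exists_bound_of_continuousOn hcont
  refine intervalIntegral.tendsto_integral_filter_of_dominated_convergence (fun _ => M) ?_ ?_ ?_ ?_
  · refine Eventually.of_forall fun k => ?_
    have hc : Continuous fun s : ℝ => g ((σ k : ℂ) + Complex.I * ((lam * s : ℝ) : ℂ)) := by
      refine hg.comp_continuous (by fun_prop) ?_
      intro s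
      show 0 ≤ ((σ k : ℂ) + Complex.I * ((lam * s : ℝ) : ℂ)).re
      rw [hre]
      exact (hσ0 k).le
    have hc2 : Continuous fun s : ℝ => ((1 - |s| : ℝ) : ℂ) *
        Complex.exp (Complex.I * ((lam * s * x : ℝ) : ℂ)) *
          g ((σ k : ℂ) + Complex.I * ((lam * s : ℝ) : ℂ)) :=
      Continuous.mul (by fun_prop) hc
    exact hc2.aestronglyMeasurable
  · refine Eventually.of_forall fun k => ae_of_all _ fun s hs => ?_
    rw [Set.uIoc_of_le (by norm_num)] at hs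
    have h2 := hM (σ k, s) ⟨⟨(hσ0 k).le, hσ1 k⟩, ⟨hs.1.le, hs.2⟩⟩
    rw [norm_mul, norm_mul]
    have e1 : ‖((1 - |s| : ℝ) : ℂ)‖ ≤ 1 := by
      rw [Complex.norm_real, Real.norm_eq_abs, abs_le]
      have := abs_nonneg s
      have : |s| ≤ 1 := abs_le.2 ⟨hs.1.le, hs.2⟩
      constructor <;> linarith
    have e2 : ‖Complex.exp (Complex.I * ((lam * s * x : ℝ) : ℂ))‖ = 1 := by
      rw [mul_comm, Complex.norm_exp_ofReal_mul_I]
    rw [e2, mul_one]
    calc ‖((1 - |s| : ℝ) : ℂ)‖ * ‖g ((σ k : ℂ) + Complex.I * ((lam * s : ℝ) : ℂ))‖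
        ≤ 1 * M := mul_le_mul e1 h2 (norm_nonneg _) zero_le_one
      _ = M := one_mul M
  · exact intervalIntegrable_const
  · refine ae_of_all _ fun s _ => ?_
    refine Tendsto.const_mul _ ?_
    have h3 : ContinuousWithinAt g {z : ℂ | 0 ≤ z.re} (Complex.I * ((lam * s : ℝ) : ℂ)) := by
      refine hg _ ?_
      show 0 ≤ (Complex.I * ((lam * s : ℝ) : ℂ)).re
      have := hre 0 s
      rw [Complex.ofReal_zero, zero_add] at this
      rw [this]
    refine h3.tendsto.comp (tendsto_nhdsWithin_iff.2 ⟨?_, ?_⟩)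
    · have h4 : Tendsto (fun k : ℕ => ((σ k : ℝ) : ℂ) + Complex.I * ((lam * s : ℝ) : ℂ)) atTop
          (𝓝 (((0 : ℝ) : ℂ) + Complex.I * ((lam * s : ℝ) : ℂ))) :=
        Tendsto.add_const _ ((Complex.continuous_ofReal.tendsto _).comp hσ)
      rw [Complex.ofReal_zero, zero_add] at h4
      exact h4
    · refine Eventually.of_forall fun k => ?_
      show 0 ≤ ((σ k : ℂ) + Complex.I * ((lam * s : ℝ) : ℂ)).re
      rw [hre]
      exact (hσ0 k).le

end FE2_

theorem p_FE2 (h1 : T_KNN) (h2 : T_FE1) : T_FE2 := by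
  intro f g hfg lam x hlam
  obtain ⟨hf, ⟨C, hC⟩, hg, -⟩ := id hfg
  have hσ0 : ∀ k : ℕ, (0 : ℝ) < 1 / ((k : ℝ) + 1) := fun k => by positivity
  have hσ1 : ∀ k : ℕ, 1 / ((k : ℝ) + 1) ≤ 1 := fun k => by
    rw [div_le_one (by positivity)]
    have : (0 : ℝ) ≤ k := k.cast_nonneg
    linarith
  have hσ : Tendsto (fun k : ℕ => 1 / ((k : ℝ) + 1)) atTop (𝓝 0) :=
    tendsto_one_div_add_atTop_nhds_zero_nat
  have hl := FE2_.left_lim h1 f hf C hC lam x hlam (fun k : ℕ => 1 / ((k : ℝ) + 1)) hσ0 hσ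
  have hr := (FE2_.right_lim g hg lam x (fun k : ℕ => 1 / ((k : ℝ) + 1)) hσ0 hσ1 hσ).const_mul
    (((lam / 2 : ℝ)) : ℂ)
  refine tendsto_nhds_unique hl (hr.congr fun k => ?_)
  exact (h2 f g hfg lam _ x hlam (hσ0 k)).symm

end SLW
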