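import Mathlib

/-!
# MP_d74fca_nt, project SSL, part (W): prime number theorem for arithmetic progressions (helper55)

Wiener-Ikehara with the Fejer kernel, from Mathlib's `LFunctionResidueClassAux`.
-/

set_option autoImplicit false

open MeasureTheory Filter Topology

namespace SLW

/-- `ψ(x; m, u)` -/
noncomputable def psa (m u : ℕ) (x : ℝ) : ℝ :=
  ∑ n ∈ Finset.Icc 1 ⌊x⌋₊, if n ≡ u [MOD m] then ArithmeticFunction.vonMangoldt n else 0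

/-- `ψ(e^y; m, u) e^{-y}` -/
noncomputable def bb (m u : ℕ) (y : ℝ) : ℝ := psa m u (Real.exp y) * Real.exp (-y)

/-- Fejer kernel (the value at `0` is irrelevant) -/
noncomputable def fk (v : ℝ) : ℝ := (1 - Real.cos v) / v ^ 2

/-- the hypotheses of the Tauberian step: `f` is bounded and its Laplace transform extends
continuously to the closed half plane -/
def Lap (f : ℝ → ℝ) (g : ℂ → ℂ) : Prop := Measurable f ∧ (∃ C : ℝ, ∀ y, |f y| ≤ C) ∧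
  ContinuousOn g {z : ℂ | 0 ≤ z.re} ∧
  ∀ z : ℂ, 0 < z.re → ∫ y in Set.Ioi (0 : ℝ), (f y : ℂ) * Complex.exp (-z * y) = g z

/-- KNN: the kernel is nonnegative and integrable with positive integral -/
def T_KNN : Prop := (∀ v, 0 ≤ fk v) ∧ Measurable fk ∧ Integrable fk ∧ 0 < ∫ v, fk v

/-- KFT: Fourier representation of the kernel -/
def T_KFT : Prop := ∀ v : ℝ, v ≠ 0 → (fk v : ℂ) =
  (1 / 2) * ∫ s in (-1 : ℝ)..1, ((1 - |s| : ℝ) : ℂ) * Complex.exp (Complex.I * (s * v : ℝ))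

/-- BDD: `bb` is bounded (uniformly), measurable, and `bb y * e^y` is monotone -/
def T_BDD : Prop := (∃ C : ℝ, 0 < C ∧ ∀ (m u : ℕ) (y : ℝ), 0 ≤ bb m u y ∧ bb m u y ≤ C) ∧
  ∀ m u : ℕ, Measurable (bb m u) ∧ Monotone fun y => bb m u y * Real.exp y

/-- LAP (from BDD): the Laplace transform of `bb - 1/φ(m)` -/
def T_LAP : Prop := ∀ m u : ℕ, 0 < m → u.Coprime m → ∃ g : ℂ → ℂ,
  ContinuousOn g {z : ℂ | 0 ≤ z.re} ∧ ∀ z : ℂ, 0 < z.re →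
    ∫ y in Set.Ioi (0 : ℝ), ((bb m u y - 1 / m.totient : ℝ) : ℂ) * Complex.exp (-z * y) = g z

/-- FE1 (from KNN, KFT): Fubini -/
def T_FE1 : Prop := ∀ (f : ℝ → ℝ) (g : ℂ → ℂ), Lap f g → ∀ lam σ x : ℝ, 0 < lam → 0 < σ →
  ∫ y in Set.Ioi (0 : ℝ), ((f y * Real.exp (-(σ * y)) * (lam * fk (lam * (x - y))) : ℝ) : ℂ) =
    (lam / 2 : ℝ) * ∫ s in (-1 : ℝ)..1, ((1 - |s| : ℝ) : ℂ) *
      Complex.exp (Complex.I * (lam * s * x : ℝ)) * g (σ + Complex.I * (lam * s : ℝ))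

/-- FE2 (from KNN, FE1): `σ → 0` -/
def T_FE2 : Prop := ∀ (f : ℝ → ℝ) (g : ℂ → ℂ), Lap f g → ∀ lam x : ℝ, 0 < lam →
  ∫ y in Set.Ioi (0 : ℝ), ((f y * (lam * fk (lam * (x - y))) : ℝ) : ℂ) =
    (lam / 2 : ℝ) * ∫ s in (-1 : ℝ)..1, ((1 - |s| : ℝ) : ℂ) *
      Complex.exp (Complex.I * (lam * s * x : ℝ)) * g (Complex.I * (lam * s : ℝ))

/-- FE3 (from FE2): Riemann-Lebesgue -/
def T_FE3 : Prop := ∀ (f : ℝ → ℝ) (g : ℂ → ℂ), Lap f g → ∀ lam : ℝ, 0 < lam →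
  Tendsto (fun x : ℝ => ∫ y in Set.Ioi (0 : ℝ), f y * (lam * fk (lam * (x - y)))) atTop (𝓝 0)

/-- MAS (from KNN): masses of the kernel -/
def T_MAS : Prop := Tendsto (fun T : ℝ => ∫ v in (-T)..T, fk v) atTop (𝓝 (∫ v, fk v)) ∧
  ∀ lam : ℝ, 0 < lam →
    Tendsto (fun x : ℝ => ∫ y in Set.Ioi (0 : ℝ), lam * fk (lam * (x - y))) atTop
      (𝓝 (∫ v, fk v)) ∧
    ∀ x : ℝ, Integrable (fun y : ℝ => lam * fk (lam * (x - y))) ∧
      ∫ y, lam * fk (lam * (x - y)) = ∫ v, fk v ∧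
      ∀ δ : ℝ, 0 < δ → ∫ y in (x - δ)..(x + δ), lam * fk (lam * (x - y)) =
        ∫ v in (-(lam * δ))..(lam * δ), fk v

/-- TAU (from KNN, MAS): Tauberian theorem -/
def T_TAU : Prop := ∀ (b : ℝ → ℝ) (C A : ℝ), Measurable b → (∀ y, 0 ≤ b y ∧ b y ≤ C) →
  (Monotone fun y => b y * Real.exp y) → 0 ≤ A →
  (∀ lam : ℝ, 0 < lam → Tendsto
    (fun x : ℝ => ∫ y in Set.Ioi (0 : ℝ), (b y - A) * (lam * fk (lam * (x - y)))) atTop (𝓝 0)) →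
  Tendsto b atTop (𝓝 A)

/-- PNT (from BDD, LAP, FE3, TAU): prime number theorem for arithmetic progressions -/
def T_PNT : Prop := ∀ m u : ℕ, 0 < m → u.Coprime m →
  Tendsto (fun x : ℝ => psa m u x / x) atTop (𝓝 (1 / m.totient))

/-- PRI (from PNT): primes in `(X, r X]` -/
def T_PRI : Prop := ∀ m u : ℕ, 0 < m → u.Coprime m → ∀ r : ℝ, 1 < r → ∃ X₀ : ℝ, 2 ≤ X₀ ∧
  ∀ X : ℝ, X₀ ≤ X → 1 / 2 * (r - 1) * X / (m.totient * Real.log X) ≤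
    (((Finset.Icc 1 ⌊r * X⌋₊).filter
      fun p : ℕ => p.Prime ∧ X < (p : ℝ) ∧ p ≡ u [MOD m]).card : ℝ)

end SLW
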