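import Mathlib
import Pool.Agent.SLW.Targets

/-!
FE3: Riemann-Lebesgue
-/

set_option autoImplicit false

open MeasureTheory Filter Topology

namespace SLW

namespace FE3_

theorem freq (lam : ℝ) (hl : 0 < lam) :
    Tendsto (fun x : ℝ => -(lam * x) / (2 * Real.pi)) atTop (cocompact ℝ) := by
  have h1 : Tendsto (fun x : ℝ => (lam / (2 * Real.pi)) * x) atTop atTop :=
    tendsto_id.const_mul_atTop (by positivity)
  have h2 : Tendsto (fun x : ℝ => -((lam / (2 * Real.pi)) * x)) atTop atBot :=
    tendsto_neg_atTop_atBot.comp h1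
  have h3 : (fun x : ℝ => -(lam * x) / (2 * Real.pi)) =
      fun x : ℝ => -((lam / (2 * Real.pi)) * x) := by
    funext x
    ring
  rw [h3]
  exact h2.mono_right atBot_le_cocompact

theorem rl (lam : ℝ) (hl : 0 < lam) (h : ℝ → ℂ) :
    Tendsto (fun x : ℝ => ∫ s in (-1 : ℝ)..1, Complex.exp (Complex.I * (lam * s * x : ℝ)) * h s)
      atTop (𝓝 0) := by
  have h1 := (Real.tendsto_integral_exp_smul_cocompact
    ((Set.Ioc (-1 : ℝ) 1).indicator h)).comp (freq lam hl)
  refine h1.congr fun x => ?_
  rw [intervalIntegral.integral_of_le (by norm_num : (-1 : ℝ) ≤ 1),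
    ← integral_indicator measurableSet_Ioc]
  refine integral_congr_ae (Eventually.of_forall fun s => ?_)
  by_cases hs : s ∈ Set.Ioc (-1 : ℝ) 1
  · simp only [Set.indicator_of_mem hs]
    rw [Circle.smul_def, Real.fourierChar_apply, smul_eq_mul]
    congr 2
    push_cast
    have : (Real.pi : ℂ) ≠ 0 := by exact_mod_cast Real.pi_ne_zero
    field_simp
  · simp only [Set.indicator_of_notMem hs, smul_zero]

end FE3_

open FE3_ in
theorem p_FE3 (h : T_FE2) : T_FE3 := by
  intro f g hfg lam hl
  have h1 := rl lam hl fun s => ((1 - |s| : ℝ) : ℂ) * g (Complex.I * (lam * s : ℝ))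
  have h2 : Tendsto (fun x : ℝ => ((∫ y in Set.Ioi (0 : ℝ),
      f y * (lam * fk (lam * (x - y))) : ℝ) : ℂ)) atTop (𝓝 0) := by
    have h3 := h1.const_mul ((lam / 2 : ℝ) : ℂ)
    rw [mul_zero] at h3
    refine h3.congr fun x => ?_
    rw [← integral_complex_ofReal, h f g hfg lam x hl]
    congr 1
    refine intervalIntegral.integral_congr fun s _ => ?_
    ring
  have h4 := (Complex.continuous_re.tendsto 0).comp h2
  rw [Complex.zero_re] at h4
  exact h4.congr fun x => Complex.ofReal_re _

end SLW
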