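import Pool.Agent.SLW.Targets

/-!
# MP_d74fca_nt, SLW-KFT: Fourier representation of the Fejer kernel (helper29, for helper55)
-/

set_option autoImplicit false

open MeasureTheory Filter Topology

namespace SLW

namespace KFT_

theorem der_exp (w : ℂ) (s : ℝ) :
    HasDerivAt (fun s : ℝ => Complex.exp ((s : ℂ) * w)) (Complex.exp ((s : ℂ) * w) * w) s := by
  have h1 : HasDerivAt (fun s : ℝ => (s : ℂ) * w) (1 * w) s :=
    (Complex.ofRealCLM.hasDerivAt (x := s)).mul_const w
  have h2 := h1.cexp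
  rwa [one_mul] at h2

theorem der_one {w : ℂ} (hw : w ≠ 0) (s : ℝ) :
    HasDerivAt (fun s : ℝ => (1 - (s : ℂ)) * Complex.exp ((s : ℂ) * w) / w +
      Complex.exp ((s : ℂ) * w) / w ^ 2) ((1 - (s : ℂ)) * Complex.exp ((s : ℂ) * w)) s := by
  have h0 : HasDerivAt (fun s : ℝ => (1 : ℂ) - (s : ℂ)) (-1) s :=
    (Complex.ofRealCLM.hasDerivAt (x := s)).const_sub 1
  have h1 := ((h0.mul (der_exp w s)).div_const w).add ((der_exp w s).div_const (w ^ 2))
  refine h1.congr_deriv ?_
  field_simp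
  ring

theorem der_two {w : ℂ} (hw : w ≠ 0) (s : ℝ) :
    HasDerivAt (fun s : ℝ => (1 + (s : ℂ)) * Complex.exp ((s : ℂ) * w) / w -
      Complex.exp ((s : ℂ) * w) / w ^ 2) ((1 + (s : ℂ)) * Complex.exp ((s : ℂ) * w)) s := by
  have h0 : HasDerivAt (fun s : ℝ => (1 : ℂ) + (s : ℂ)) 1 s :=
    (Complex.ofRealCLM.hasDerivAt (x := s)).const_add 1
  have h1 := ((h0.mul (der_exp w s)).div_const w).sub ((der_exp w s).div_const (w ^ 2))
  refine h1.congr_deriv ?_
  field_simp
  ring

end KFT_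

open KFT_ in
theorem p_KFT : T_KFT := by
  intro v hv
  have hvC : (v : ℂ) ≠ 0 := by exact_mod_cast hv
  obtain ⟨w, hw⟩ : ∃ w : ℂ, w = Complex.I * v := ⟨_, rfl⟩
  have hw0 : w ≠ 0 := by
    rw [hw]
    exact mul_ne_zero Complex.I_ne_zero hvC
  have hexp : ∀ s : ℝ, Complex.I * ((s * v : ℝ) : ℂ) = (s : ℂ) * w := by
    intro s
    rw [hw]
    push_cast
    ring
  have hcont : Continuous fun s : ℝ =>
      ((1 - |s| : ℝ) : ℂ) * Complex.exp (Complex.I * ((s * v : ℝ) : ℂ)) := by fun_prop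
  have h1 : ∫ s in (0 : ℝ)..1, ((1 - |s| : ℝ) : ℂ) *
      Complex.exp (Complex.I * ((s * v : ℝ) : ℂ)) = Complex.exp w / w ^ 2 - (1 / w + 1 / w ^ 2) := by
    have e1 : ∫ s in (0 : ℝ)..1, ((1 - |s| : ℝ) : ℂ) *
        Complex.exp (Complex.I * ((s * v : ℝ) : ℂ)) =
        ∫ s in (0 : ℝ)..1, (1 - (s : ℂ)) * Complex.exp ((s : ℂ) * w) := by
      apply intervalIntegral.integral_congr
      intro s hs
      rw [Set.uIcc_of_le zero_le_one] at hs
      simp only [hexp, abs_of_nonneg hs.1]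
      push_cast
      rfl
    rw [e1, intervalIntegral.integral_eq_sub_of_hasDerivAt (fun s _ => der_one hw0 s)]
    · simp only [Complex.ofReal_one, Complex.ofReal_zero, sub_self, zero_mul, zero_div, one_mul,
        Complex.exp_zero, sub_zero, zero_add]
    · apply Continuous.intervalIntegrable
      fun_prop
  have h2 : ∫ s in (-1 : ℝ)..0, ((1 - |s| : ℝ) : ℂ) *
      Complex.exp (Complex.I * ((s * v : ℝ) : ℂ)) = (1 / w - 1 / w ^ 2) + Complex.exp (-w) / w ^ 2 := by
    have e1 : ∫ s in (-1 : ℝ)..0, ((1 - |s| : ℝ) : ℂ) *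
        Complex.exp (Complex.I * ((s * v : ℝ) : ℂ)) =
        ∫ s in (-1 : ℝ)..0, (1 + (s : ℂ)) * Complex.exp ((s : ℂ) * w) := by
      apply intervalIntegral.integral_congr
      intro s hs
      rw [Set.uIcc_of_le (by norm_num)] at hs
      simp only [hexp, abs_of_nonpos hs.2]
      push_cast
      ring
    rw [e1, intervalIntegral.integral_eq_sub_of_hasDerivAt (fun s _ => der_two hw0 s)]
    · simp only [Complex.ofReal_neg, Complex.ofReal_one, Complex.ofReal_zero, zero_mul, one_mul,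
        Complex.exp_zero, add_zero, neg_mul, add_neg_cancel, zero_div, zero_sub]
      ring
    · apply Continuous.intervalIntegrable
      fun_prop
  rw [← intervalIntegral.integral_add_adjacent_intervals (b := 0)
    (hcont.intervalIntegrable _ _) (hcont.intervalIntegrable _ _), h1, h2]
  have h3 : Complex.exp w + Complex.exp (-w) = 2 * (Real.cos v : ℂ) := by
    rw [Complex.ofReal_cos, Complex.cos, hw]
    have : -(Complex.I * (v : ℂ)) = -(v : ℂ) * Complex.I := by ring
    rw [this, mul_comm Complex.I]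
    ring
  have h4 : w ^ 2 = -((v : ℂ) ^ 2) := by
    rw [hw, mul_pow, Complex.I_sq]
    ring
  have h5 : (1 / 2 : ℂ) * ((1 / w - 1 / w ^ 2) + Complex.exp (-w) / w ^ 2 +
      (Complex.exp w / w ^ 2 - (1 / w + 1 / w ^ 2))) =
      (Complex.exp w + Complex.exp (-w) - 2) / (2 * w ^ 2) := by
    field_simp
    ring
  rw [h5, h3, h4]
  unfold fk
  push_cast
  field_simp
  ring

end SLW
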