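import Pool.Agent.SLW.Targets

/-!
# MP_d74fca_nt, KNN: the Fejer kernel is nonnegative and integrable (helper76, for helper55)
-/

set_option autoImplicit false

open MeasureTheory Filter Topology

namespace SLW

namespace KNN_

lemma nonneg (v : ℝ) : 0 ≤ fk v := by
  unfold fk
  exact div_nonneg (by linarith [Real.cos_le_one v]) (sq_nonneg v)

lemma meas : Measurable fk := by
  unfold fk
  fun_prop

lemma le_bound (v : ℝ) : fk v ≤ 4 * (1 + v ^ 2)⁻¹ := by
  have h0 : (0 : ℝ) < 1 + v ^ 2 := by positivity
  rw [← div_eq_mul_inv, le_div_iff₀ h0]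
  unfold fk
  by_cases hv : v = 0
  · subst hv
    norm_num
  · have hv2 : 0 < v ^ 2 := by positivity
    rw [div_mul_eq_mul_div, div_le_iff₀ hv2]
    have h1 := Real.one_sub_sq_div_two_le_cos (x := v)
    have h2 := Real.neg_one_le_cos v
    rcases le_total (v ^ 2) 1 with h | h
    · nlinarith
    · nlinarith

lemma integ : Integrable fk := by
  refine Integrable.mono' (integrable_inv_one_add_sq.const_mul 4) meas.aestronglyMeasurable ?_
  refine Eventually.of_forall (fun v => ?_)
  rw [Real.norm_eq_abs, abs_of_nonneg (nonneg v)]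
  exact le_bound v

lemma pos {v : ℝ} (h1 : 1 < v) (h2 : v < 2) : 0 < fk v := by
  unfold fk
  have h3 : Real.cos v < 1 := by
    have h4 := Real.cos_lt_cos_of_nonneg_of_le_pi (x := 0) (y := v) le_rfl
      (by linarith [Real.pi_gt_three]) (by linarith)
    rwa [Real.cos_zero] at h4
  have h5 : 0 < v ^ 2 := by positivity
  exact div_pos (by linarith) h5

end KNN_

open KNN_ in
theorem p_KNN : T_KNN := by
  refine ⟨nonneg, meas, integ, ?_⟩
  rw [integral_pos_iff_support_of_nonneg nonneg integ]
  have h1 : Set.Ioo (1 : ℝ) 2 ⊆ Function.support fk := by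
    intro v hv
    exact (pos hv.1 hv.2).ne'
  refine lt_of_lt_of_le ?_ (measure_mono h1)
  rw [Real.volume_Ioo]
  norm_num

end SLW
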