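import Pool.Agent.SLW.Targets

/-!
# MP_d74fca_nt, project SSL, part (W): SLW-LAP (helper38)
-/

set_option autoImplicit false

open MeasureTheory Filter Topology

namespace SLW

namespace LAP_

open ArithmeticFunction ArithmeticFunction.vonMangoldt

theorem sum_eq (m u n : ℕ) : ∑ k ∈ Finset.Icc 1 n, residueClass (u : ZMod m) k =
    ∑ k ∈ Finset.Icc 1 n, if k ≡ u [MOD m] then ArithmeticFunction.vonMangoldt k else 0 := by
  refine Finset.sum_congr rfl fun k _ => ?_
  by_cases h : k ≡ u [MOD m]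
  · have h1 : (k : ZMod m) = (u : ZMod m) := (ZMod.natCast_eq_natCast_iff _ _ _).mpr h
    rw [if_pos h, residueClass, Set.indicator_of_mem (by simpa using h1)]
  · have h1 : ¬ (k : ZMod m) = (u : ZMod m) := fun hh =>
      h ((ZMod.natCast_eq_natCast_iff _ _ _).mp hh)
    rw [if_neg h, residueClass, Set.indicator_of_notMem (by simpa using h1)]

theorem psa_eq (m u : ℕ) (x : ℝ) :
    psa m u x = ∑ k ∈ Finset.Icc 1 ⌊x⌋₊, residueClass (u : ZMod m) k := by
  rw [sum_eq]
  rfl

theorem psa_nat_le {C : ℝ} (hC : ∀ (m u : ℕ) (y : ℝ), 0 ≤ bb m u y ∧ bb m u y ≤ C)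
    (m u n : ℕ) (hn : 1 ≤ n) : 0 ≤ psa m u n ∧ psa m u n ≤ C * n := by
  have hn0 : (0 : ℝ) < n := by exact_mod_cast hn
  obtain ⟨h1, h2⟩ := hC m u (Real.log n)
  unfold bb at h1 h2
  rw [Real.exp_log hn0, Real.exp_neg, Real.exp_log hn0] at h1 h2
  constructor
  · by_contra hc
    push Not at hc
    have : psa m u n * (n : ℝ)⁻¹ < 0 := mul_neg_of_neg_of_pos hc (by positivity)
    linarith
  · have := mul_le_mul_of_nonneg_right h2 hn0.le
    rwa [mul_assoc, inv_mul_cancel₀ hn0.ne', mul_one] at this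

theorem bigO {C : ℝ} (hC : ∀ (m u : ℕ) (y : ℝ), 0 ≤ bb m u y ∧ bb m u y ≤ C) (m u : ℕ) :
    (fun n : ℕ => ∑ k ∈ Finset.Icc 1 n, residueClass (u : ZMod m) k) =O[atTop]
      fun n : ℕ => (n : ℝ) ^ (1 : ℝ) := by
  refine Asymptotics.IsBigO.of_bound C ?_
  filter_upwards [eventually_ge_atTop 1] with n hn
  have h := psa_nat_le hC m u n hn
  rw [psa_eq, Nat.floor_natCast] at h
  rw [Real.rpow_one, Real.norm_of_nonneg h.1, Real.norm_natCast]
  exact h.2

theorem image_exp : Real.exp '' Set.Ioi 0 = Set.Ioi 1 := by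
  ext t
  constructor
  · rintro ⟨y, hy, rfl⟩
    exact Real.one_lt_exp_iff.mpr hy
  · intro ht
    have ht' : (1 : ℝ) < t := ht
    exact ⟨Real.log t, Real.log_pos ht', Real.exp_log (by linarith)⟩

theorem subst (m u : ℕ) (z : ℂ) :
    ∫ t in Set.Ioi (1 : ℝ), (∑ k ∈ Finset.Icc 1 ⌊t⌋₊,
      ((residueClass (u : ZMod m) k : ℝ) : ℂ)) * (t : ℂ) ^ (-((1 + z) + 1)) =
    ∫ y in Set.Ioi (0 : ℝ), ((bb m u y : ℝ) : ℂ) * Complex.exp (-z * y) := by
  rw [← image_exp, integral_image_eq_integral_abs_deriv_smul (f := Real.exp) (f' := Real.exp)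
    measurableSet_Ioi (fun x _ => (Real.hasDerivAt_exp x).hasDerivWithinAt)
    Real.exp_injective.injOn]
  refine setIntegral_congr_fun measurableSet_Ioi fun y _ => ?_
  have h1 : ∑ k ∈ Finset.Icc 1 ⌊Real.exp y⌋₊, ((residueClass (u : ZMod m) k : ℝ) : ℂ) =
      ((psa m u (Real.exp y) : ℝ) : ℂ) := by
    rw [psa_eq, Complex.ofReal_sum]
  have h2 : ((Real.exp y : ℝ) : ℂ) ^ (-((1 + z) + 1)) = Complex.exp (y * (-((1 + z) + 1))) := by
    rw [Complex.cpow_def_of_ne_zero (by exact_mod_cast (Real.exp_pos y).ne'),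
      ← Complex.ofReal_log (Real.exp_pos y).le, Real.log_exp]
  rw [h1, h2, abs_of_pos (Real.exp_pos y), Complex.real_smul, bb]
  push_cast
  rw [mul_comm (Complex.exp (y : ℂ)), mul_assoc, mul_assoc, ← Complex.exp_add, ← Complex.exp_add]
  congr 2
  ring

end LAP_

open ArithmeticFunction ArithmeticFunction.vonMangoldt in
theorem p_LAP (h1 : T_BDD) : T_LAP := by
  intro m u hm hu
  have : NeZero m := ⟨hm.ne'⟩
  obtain ⟨⟨C, hC0, hC⟩, hmeas⟩ := h1
  have ha : IsUnit (u : ZMod m) := by
    rw [← ZMod.coe_unitOfCoprime u hu]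
    exact (ZMod.unitOfCoprime u hu).isUnit
  set a : ZMod m := (u : ZMod m) with hadef
  refine ⟨fun z => (LFunctionResidueClassAux a (1 + z) - (m.totient : ℂ)⁻¹) / (1 + z), ?_, ?_⟩
  · refine ContinuousOn.div ?_ (by fun_prop) ?_
    · refine ContinuousOn.sub ?_ continuousOn_const
      refine (continuousOn_LFunctionResidueClassAux a).comp (by fun_prop) ?_
      intro z hz
      have hz' : 0 ≤ z.re := hz
      show 1 ≤ (1 + z).re
      rw [Complex.add_re, Complex.one_re]
      linarith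
    · intro z hz h0
      have hz' : 0 ≤ z.re := hz
      have := congrArg Complex.re h0
      rw [Complex.add_re, Complex.one_re, Complex.zero_re] at this
      linarith
  · intro z hz
    have hs : (1 : ℝ) < (1 + z).re := by
      rw [Complex.add_re, Complex.one_re]
      linarith
    have hz0 : z ≠ 0 := by
      rintro rfl
      simp at hz
    have hs0 : (1 + z) ≠ 0 := by
      intro h0
      rw [h0] at hs
      simp at hs
      linarith
    have hneg : (-z).re < 0 := by simpa using hz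
    have hI1 : IntegrableOn (fun y : ℝ => Complex.exp (-z * y)) (Set.Ioi 0) :=
      integrableOn_exp_mul_complex_Ioi hneg 0
    have hI2 : IntegrableOn (fun y : ℝ => ((bb m u y : ℝ) : ℂ) * Complex.exp (-z * y))
        (Set.Ioi 0) := by
      refine Integrable.bdd_mul (c := C) hI1 ?_ ?_
      · exact (Complex.measurable_ofReal.comp (hmeas m u).1).aestronglyMeasurable
      · refine Filter.Eventually.of_forall fun y => ?_
        rw [Complex.norm_real, Real.norm_of_nonneg (hC m u y).1]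
        exact (hC m u y).2
    have hA : ∫ y in Set.Ioi (0 : ℝ), Complex.exp (-z * y) = 1 / z := by
      rw [integral_exp_mul_complex_Ioi hneg 0]
      simp only [Complex.ofReal_zero, mul_zero, Complex.exp_zero]
      rw [neg_div_neg_eq]
    have hL := LSeries_eq_mul_integral_of_nonneg (fun n => residueClass a n) (r := 1)
      zero_le_one hs (LAP_.bigO hC m u) (fun n => residueClass_nonneg a n)
    rw [LAP_.subst m u z] at hL
    have hEq := eqOn_LFunctionResidueClassAux ha (show (1 + z) ∈ {s : ℂ | 1 < s.re} from hs)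
    simp only at hEq
    have hsub : ∫ y in Set.Ioi (0 : ℝ), ((bb m u y - 1 / m.totient : ℝ) : ℂ) *
        Complex.exp (-z * y) = (∫ y in Set.Ioi (0 : ℝ), ((bb m u y : ℝ) : ℂ) *
        Complex.exp (-z * y)) - (m.totient : ℂ)⁻¹ * (1 / z) := by
      rw [← hA, ← integral_const_mul, ← integral_sub hI2 (hI1.const_mul _)]
      refine integral_congr_ae (Filter.Eventually.of_forall fun y => ?_)
      simp only
      push_cast
      ring
    rw [hsub]
    show _ = (LFunctionResidueClassAux a (1 + z) - (m.totient : ℂ)⁻¹) / (1 + z)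
    rw [hEq, hL]
    have hs1 : (1 + z - 1) ≠ 0 := by rwa [add_sub_cancel_left]
    field_simp
    ring

end SLW
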