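import Pool.Agent.SLW.Targets

/-!
# MP_d74fca_nt, project SSL, part (W), MAS: masses of the kernel (helper81, for helper55)
-/

set_option autoImplicit false

open MeasureTheory Filter Topology

namespace SLW

namespace MAS_

theorem int_scaled (hI : Integrable fk) {lam : ℝ} (hl : 0 < lam) :
    Integrable (fun v : ℝ => lam * fk (lam * v)) ∧ ∫ v, lam * fk (lam * v) = ∫ v, fk v := by
  constructor
  · exact (hI.comp_mul_left' hl.ne').const_mul lam
  · rw [integral_const_mul, Measure.integral_comp_mul_left, smul_eq_mul, abs_of_pos (by positivity),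
      ← mul_assoc, mul_inv_cancel₀ hl.ne', one_mul]

theorem half (G : ℝ → ℝ) (hG : Integrable G) :
    Tendsto (fun x : ℝ => ∫ y in Set.Ioi (0 : ℝ), G (x - y)) atTop (𝓝 (∫ v, G v)) := by
  have h1 : ∀ x : ℝ, ∫ y in Set.Ioi (0 : ℝ), G (x - y) = ∫ v, (Set.Iio x).indicator G v := by
    intro x
    rw [← integral_sub_left_eq_self (fun v => (Set.Iio x).indicator G v) volume x,
      ← integral_indicator measurableSet_Ioi]
    congr 1
    ext y
    by_cases hy : 0 < y
    · rw [Set.indicator_of_mem (Set.mem_Ioi.mpr hy), Set.indicator_of_mem]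
      simp only [Set.mem_Iio]
      linarith
    · rw [Set.indicator_of_notMem (by simpa using hy), Set.indicator_of_notMem]
      simp only [Set.mem_Iio]
      linarith
  simp_rw [h1]
  refine tendsto_integral_filter_of_dominated_convergence (fun v => ‖G v‖) ?_ ?_ hG.norm ?_
  · exact Eventually.of_forall (fun x => hG.aestronglyMeasurable.indicator measurableSet_Iio)
  · refine Eventually.of_forall (fun x => Eventually.of_forall (fun v => ?_))
    exact norm_indicator_le_norm_self _ _
  · refine Eventually.of_forall (fun v => ?_)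
    refine tendsto_const_nhds.congr' ?_
    filter_upwards [eventually_gt_atTop v] with x hx
    rw [Set.indicator_of_mem (Set.mem_Iio.mpr hx)]

end MAS_

theorem p_MAS (h1 : T_KNN) : T_MAS := by
  obtain ⟨-, -, hI, -⟩ := h1
  refine ⟨intervalIntegral_tendsto_integral hI tendsto_neg_atTop_atBot tendsto_id, ?_⟩
  intro lam hl
  obtain ⟨hs1, hs2⟩ := MAS_.int_scaled hI hl
  refine ⟨?_, ?_⟩
  · have := MAS_.half _ hs1
    rwa [hs2] at this
  · intro x
    refine ⟨?_, ?_, ?_⟩
    · exact hs1.comp_sub_left x
    · rw [integral_sub_left_eq_self (fun v => lam * fk (lam * v)) volume x, hs2]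
    · intro δ hδ
      rw [intervalIntegral.integral_comp_sub_left (fun v => lam * fk (lam * v)) x,
        intervalIntegral.integral_const_mul, intervalIntegral.mul_integral_comp_mul_left]
      congr 1 <;> ring

end SLW
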