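import Pool.Agent.SLW.Targets

/-!
# SLW-PNT: prime number theorem for arithmetic progressions
-/

set_option autoImplicit false

open MeasureTheory Filter Topology

namespace SLW

theorem p_PNT (h1 : T_BDD) (h2 : T_LAP) (h3 : T_FE3) (h4 : T_TAU) : T_PNT := by
  intro m u hm hu
  obtain ⟨C, hC, hb⟩ := h1.1
  obtain ⟨hmeas, hmono⟩ := h1.2 m u
  obtain ⟨g, hg, hlap⟩ := h2 m u hm hu
  have hA : (0 : ℝ) ≤ 1 / m.totient := by positivity
  have hL : Lap (fun y => bb m u y - 1 / m.totient) g := by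
    refine ⟨hmeas.sub_const _, ⟨C + 1 / m.totient, fun y => ?_⟩, hg, hlap⟩
    have h := hb m u y
    rw [abs_le]
    constructor <;> linarith [h.1, h.2]
  have hT : Tendsto (bb m u) atTop (𝓝 (1 / (m.totient : ℝ))) := by
    refine h4 (bb m u) C (1 / m.totient) hmeas (fun y => hb m u y) hmono hA ?_
    intro lam hlam
    exact h3 _ g hL lam hlam
  have h5 : Tendsto (fun x : ℝ => bb m u (Real.log x)) atTop (𝓝 (1 / (m.totient : ℝ))) :=
    hT.comp Real.tendsto_log_atTop
  refine h5.congr' ?_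
  filter_upwards [eventually_gt_atTop (0 : ℝ)] with x hx
  unfold bb
  rw [Real.exp_neg, Real.exp_log hx, div_eq_mul_inv]

end SLW
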