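import Pool.Agent.SLW.Targets

/-!
# SLW-PRI: primes in progressions in short intervals
-/

set_option autoImplicit false

open MeasureTheory Filter Topology
open scoped ArithmeticFunction.vonMangoldt

namespace SLW

namespace PRI_

/-- the primes counted -/
noncomputable def NN (m u : ℕ) (r X : ℝ) : Finset ℕ :=
  (Finset.Icc 1 ⌊r * X⌋₊).filter fun p : ℕ => p.Prime ∧ X < (p : ℝ) ∧ p ≡ u [MOD m]

lemma key (m u : ℕ) {r X : ℝ} (hr : 1 < r) (hX : 1 ≤ X) :
    psa m u (r * X) - psa m u X ≤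
      (NN m u r X).card * Real.log (r * X) + 2 * √(r * X) * Real.log (r * X) := by
  have hX0 : 0 ≤ X := by linarith
  have hrX : X ≤ r * X := by nlinarith
  have hrX1 : 1 ≤ r * X := hX.trans hrX
  have hlog : 0 ≤ Real.log (r * X) := Real.log_nonneg hrX1
  have h1 : Finset.Icc 1 ⌊X⌋₊ = (Finset.Icc 1 ⌊r * X⌋₊).filter fun n : ℕ => (n : ℝ) ≤ X := by
    ext n
    simp only [Finset.mem_Icc, Finset.mem_filter]
    rw [Nat.le_floor_iff hX0, Nat.le_floor_iff (by linarith)]
    constructor
    · rintro ⟨h, h'⟩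
      exact ⟨⟨h, h'.trans hrX⟩, h'⟩
    · rintro ⟨⟨h, -⟩, h'⟩
      exact ⟨h, h'⟩
  have h2 : psa m u X = ∑ n ∈ Finset.Icc 1 ⌊r * X⌋₊,
      if (n : ℝ) ≤ X then (if n ≡ u [MOD m] then Λ n else 0) else 0 := by
    unfold psa
    rw [h1, Finset.sum_filter]
  have h3 : ∑ n ∈ Finset.Icc 1 ⌊r * X⌋₊, (if ¬ n.Prime then Λ n else 0) ≤
      2 * √(r * X) * Real.log (r * X) := by
    have h := Chebyshev.psi_sub_theta_eq_sum_not_prime (r * X)
    have h' := Chebyshev.psi_sub_theta_le hrX1
    rw [h, Finset.sum_filter] at h'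
    exact h'
  have h4 : ∑ n ∈ Finset.Icc 1 ⌊r * X⌋₊,
      (if n.Prime ∧ X < (n : ℝ) ∧ n ≡ u [MOD m] then Real.log (r * X) else 0) =
      (NN m u r X).card * Real.log (r * X) := by
    rw [← Finset.sum_filter, Finset.sum_const, nsmul_eq_mul]
    rfl
  rw [h2]
  unfold psa
  rw [← Finset.sum_sub_distrib, ← h4]
  refine le_trans ?_ (add_le_add_right h3 _)
  rw [← Finset.sum_add_distrib]
  apply Finset.sum_le_sum
  intro n hn
  rw [Finset.mem_Icc, Nat.le_floor_iff (by linarith)] at hn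
  have hn0 : (0 : ℝ) < n := by
    have : 0 < n := hn.1
    exact_mod_cast this
  have hL : 0 ≤ Λ n := ArithmeticFunction.vonMangoldt_nonneg
  by_cases hu : n ≡ u [MOD m]
  · by_cases hx : (n : ℝ) ≤ X
    · rw [if_pos hu, if_pos hx, sub_self, if_neg (by
        rintro ⟨-, h, -⟩
        exact absurd h (not_lt.2 hx)), zero_add]
      split_ifs <;> linarith
    · rw [if_pos hu, if_neg hx, sub_zero]
      by_cases hp : n.Prime
      · rw [if_pos ⟨hp, not_le.1 hx, hu⟩, if_neg (not_not.2 hp), add_zero,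
          ArithmeticFunction.vonMangoldt_apply_prime hp]
        exact Real.log_le_log hn0 hn.2
      · rw [if_neg (fun h => hp h.1), if_pos hp, zero_add]
  · rw [if_neg hu, ite_self, sub_zero]
    have : 0 ≤ (if n.Prime ∧ X < (n : ℝ) ∧ n ≡ u [MOD m] then Real.log (r * X) else 0) := by
      split_ifs <;> linarith
    have : 0 ≤ (if ¬ n.Prime then Λ n else 0) := by
      split_ifs <;> linarith
    linarith

end PRI_

open PRI_ in
theorem p_PRI (h1 : T_PNT) : T_PRI := by
  intro m u hm hu r hr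
  have h2 := h1 m u hm hu
  have hφ : (0 : ℝ) < m.totient := by exact_mod_cast Nat.totient_pos.2 hm
  set A : ℝ := 1 / m.totient with hA
  have hA0 : 0 < A := by positivity
  have hr0 : 0 < r := by linarith
  have hr1 : 0 < r - 1 := by linarith
  have ht : Tendsto (fun X : ℝ => r * X) atTop atTop := tendsto_id.const_mul_atTop hr0
  have h3 : Tendsto (fun X : ℝ => psa m u (r * X) / (r * X)) atTop (𝓝 A) := h2.comp ht
  set η : ℝ := (r - 1) * A / (4 * (r + 1)) with hη
  have hη0 : 0 < η := by positivity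
  have e1 : ∀ᶠ X : ℝ in atTop, A - η < psa m u (r * X) / (r * X) :=
    h3.eventually_const_lt (by linarith)
  have e2 : ∀ᶠ X : ℝ in atTop, psa m u X / X < A + η := h2.eventually_lt_const (by linarith)
  set c : ℝ := (r - 1) * A / (16 * r) with hc
  have hc0 : 0 < c := by positivity
  have e3 : ∀ᶠ y : ℝ in atTop, Real.log y ≤ c * y ^ (1 / 2 : ℝ) := by
    have h := (isLittleO_log_rpow_atTop (r := 1 / 2) (by norm_num)).bound hc0
    filter_upwards [h, eventually_gt_atTop (0 : ℝ)] with y hy hy0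
    rw [Real.norm_eq_abs, Real.norm_eq_abs, abs_of_nonneg (Real.rpow_nonneg hy0.le _)] at hy
    exact (le_abs_self _).trans hy
  have e4 := ht.eventually e3
  have e5 : ∀ᶠ X : ℝ in atTop, 4 * Real.log r ≤ Real.log X :=
    Real.tendsto_log_atTop.eventually_ge_atTop _
  obtain ⟨X₁, hX₁⟩ := eventually_atTop.1 (e1.and (e2.and (e4.and e5)))
  refine ⟨max 2 X₁, le_max_left _ _, fun X hX => ?_⟩
  have hX2 : 2 ≤ X := (le_max_left _ _).trans hX
  obtain ⟨g1, g2, g3, g4⟩ := hX₁ X ((le_max_right _ _).trans hX)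
  have hX0 : 0 < X := by linarith
  have hrX : 0 < r * X := by positivity
  have hlX : 0 < Real.log X := Real.log_pos (by linarith)
  rw [lt_div_iff₀ hrX] at g1
  rw [div_lt_iff₀ hX0] at g2
  have k := key m u hr (show (1 : ℝ) ≤ X by linarith)
  have hlog : Real.log (r * X) ≤ 5 / 4 * Real.log X := by
    rw [Real.log_mul hr0.ne' hX0.ne']
    linarith
  have herr : 2 * √(r * X) * Real.log (r * X) ≤ 1 / 8 * (r - 1) * A * X := by
    have h5 : √(r * X) * √(r * X) = r * X := Real.mul_self_sqrt hrX.le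
    rw [← Real.sqrt_eq_rpow] at g3
    have h6 : 2 * √(r * X) * Real.log (r * X) ≤ 2 * √(r * X) * (c * √(r * X)) :=
      mul_le_mul_of_nonneg_left g3 (by positivity)
    have h7 : 2 * √(r * X) * (c * √(r * X)) = 2 * c * (r * X) := by
      calc 2 * √(r * X) * (c * √(r * X)) = 2 * c * (√(r * X) * √(r * X)) := by ring
        _ = _ := by rw [h5]
    have h8 : 2 * c * (r * X) = 1 / 8 * (r - 1) * A * X := by
      rw [hc]; field_simp; ring
    linarith
  have hmain : 3 / 4 * (r - 1) * A * X ≤ psa m u (r * X) - psa m u X := by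
    have h9 : (r + 1) * η = 1 / 4 * ((r - 1) * A) := by
      rw [hη]; field_simp
    nlinarith
  have hN0 : (0 : ℝ) ≤ (NN m u r X).card := Nat.cast_nonneg _
  have hfin : 5 / 8 * (r - 1) * A * X ≤ (NN m u r X).card * (5 / 4 * Real.log X) := by
    have := mul_le_mul_of_nonneg_left hlog hN0
    linarith
  have hgoal : 1 / 2 * (r - 1) * X / (m.totient * Real.log X) ≤ ((NN m u r X).card : ℝ) := by
    rw [div_le_iff₀ (by positivity)]
    have h10 : A * m.totient = 1 := by rw [hA]; field_simp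
    have h11 : 5 / 8 * (r - 1) * A * X * m.totient = 5 / 8 * (r - 1) * X := by
      calc 5 / 8 * (r - 1) * A * X * m.totient = 5 / 8 * (r - 1) * X * (A * m.totient) := by ring
        _ = _ := by rw [h10, mul_one]
    have h12 := mul_le_mul_of_nonneg_right hfin hφ.le
    rw [h11] at h12
    linarith
  exact hgoal

end SLW
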