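import Pool.Agent.SLW.Targets

/-!
# MP_d74fca_nt, project SSL, part (W): target TAU, the Tauberian theorem
-/

set_option autoImplicit false

open MeasureTheory Filter Topology

namespace SLW

namespace TAU_

theorem exp_comp {b : ℝ → ℝ} (hmon : Monotone fun y => b y * Real.exp y) (hb0 : ∀ y, 0 ≤ b y)
    {x y δ : ℝ} (hxy : x ≤ y) (hy : y - x ≤ 2 * δ) : b x ≤ Real.exp (2 * δ) * b y := by
  have h1 : b x * Real.exp x ≤ b y * Real.exp y := hmon hxy
  have h2 : b y * Real.exp y = b y * Real.exp (y - x) * Real.exp x := by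
    rw [mul_assoc, ← Real.exp_add]
    congr 2
    ring
  rw [h2] at h1
  have h3 : b x ≤ b y * Real.exp (y - x) := le_of_mul_le_mul_right h1 (Real.exp_pos x)
  have h4 : b y * Real.exp (y - x) ≤ b y * Real.exp (2 * δ) :=
    mul_le_mul_of_nonneg_left (Real.exp_le_exp.2 hy) (hb0 y)
  calc b x ≤ b y * Real.exp (2 * δ) := h3.trans h4
    _ = Real.exp (2 * δ) * b y := mul_comm _ _

theorem integrable_mul {b : ℝ → ℝ} {C : ℝ} (hb : Measurable b)
    (hbC : ∀ y, 0 ≤ b y ∧ b y ≤ C) {g : ℝ → ℝ} (hg : Integrable g) :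
    Integrable fun y => b y * g y := by
  refine hg.bdd_mul (c := C) hb.aestronglyMeasurable (Eventually.of_forall fun y => ?_)
  rw [Real.norm_eq_abs, abs_of_nonneg (hbC y).1]
  exact (hbC y).2

theorem upper {b : ℝ → ℝ} {C : ℝ} (hb : Measurable b) (hbC : ∀ y, 0 ≤ b y ∧ b y ≤ C)
    (hmon : Monotone fun y => b y * Real.exp y) {δ x z : ℝ} (hδ : 0 < δ) (hx : 0 ≤ x)
    (hz : z = x + δ) {g : ℝ → ℝ} (h0 : ∀ v, 0 ≤ g v) (hg : Integrable g) :
    b x * ∫ y in (z - δ)..(z + δ), g y ≤
      Real.exp (2 * δ) * ∫ y in Set.Ioi (0 : ℝ), b y * g y := by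
  subst hz
  have hI := integrable_mul hb hbC hg
  rw [intervalIntegral.integral_of_le (by linarith), ← integral_const_mul, ← integral_const_mul]
  calc ∫ y in Set.Ioc (x + δ - δ) (x + δ + δ), b x * g y
      ≤ ∫ y in Set.Ioc (x + δ - δ) (x + δ + δ), Real.exp (2 * δ) * (b y * g y) := by
        refine setIntegral_mono_on (hg.const_mul _).integrableOn
          (hI.const_mul _).integrableOn measurableSet_Ioc fun y hy => ?_
        have h1 := exp_comp hmon (fun y => (hbC y).1) (x := x) (y := y) (δ := δ)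
          (by have := hy.1; linarith) (by have := hy.2; linarith)
        calc b x * g y ≤ (Real.exp (2 * δ) * b y) * g y := mul_le_mul_of_nonneg_right h1 (h0 y)
          _ = _ := by ring
    _ ≤ _ := by
        refine setIntegral_mono_set (hI.const_mul _).integrableOn
          (Eventually.of_forall fun y => ?_) (HasSubset.Subset.eventuallyLE ?_)
        · exact mul_nonneg (Real.exp_pos _).le (mul_nonneg (hbC y).1 (h0 y))
        · intro y hy
          have := hy.1
          simp only [Set.mem_Ioi]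
          linarith

theorem lower {b : ℝ → ℝ} {C : ℝ} (hb : Measurable b) (hbC : ∀ y, 0 ≤ b y ∧ b y ≤ C)
    (hmon : Monotone fun y => b y * Real.exp y) {δ x z : ℝ} (hδ : 0 < δ)
    (hz : z = x - δ) {g : ℝ → ℝ} (h0 : ∀ v, 0 ≤ g v) (hg : Integrable g) :
    ∫ y in Set.Ioi (0 : ℝ), b y * g y ≤
      b x * Real.exp (2 * δ) * (∫ y in (z - δ)..(z + δ), g y) +
        C * ((∫ y, g y) - ∫ y in (z - δ)..(z + δ), g y) := by
  subst hz
  have hI := integrable_mul hb hbC hg
  rw [intervalIntegral.integral_of_le (by linarith)]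
  set S : Set ℝ := Set.Ioc (x - δ - δ) (x - δ + δ) with hS
  have hSm : MeasurableSet S := measurableSet_Ioc
  have h1 : ∫ y in Set.Ioi (0 : ℝ), b y * g y ≤ ∫ y, b y * g y :=
    setIntegral_le_integral hI (Eventually.of_forall fun y => mul_nonneg (hbC y).1 (h0 y))
  have h2 := integral_add_compl hSm hI
  have h3 := integral_add_compl hSm hg
  have h4 : ∫ y in S, b y * g y ≤ b x * Real.exp (2 * δ) * ∫ y in S, g y := by
    rw [← integral_const_mul]
    refine setIntegral_mono_on hI.integrableOn (hg.const_mul _).integrableOn hSm fun y hy => ?_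
    have h5 := exp_comp (b := fun y => b y) (x := y) (y := x) (δ := δ) hmon
      (fun y => (hbC y).1) (by have := hy.2; linarith) (by have := hy.1; linarith)
    calc b y * g y ≤ (Real.exp (2 * δ) * b x) * g y := mul_le_mul_of_nonneg_right h5 (h0 y)
      _ = _ := by ring
  have h6 : ∫ y in Sᶜ, b y * g y ≤ C * ∫ y in Sᶜ, g y := by
    rw [← integral_const_mul]
    refine setIntegral_mono_on hI.integrableOn (hg.const_mul _).integrableOn hSm.compl
      fun y _ => ?_
    exact mul_le_mul_of_nonneg_right (hbC y).2 (h0 y)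
  have h7 : (∫ y, g y) - ∫ y in S, g y = ∫ y in Sᶜ, g y := by linarith
  rw [h7]
  linarith

theorem interval_le {g : ℝ → ℝ} (h0 : ∀ v, 0 ≤ g v) (hg : Integrable g) {z δ : ℝ} (hδ : 0 < δ) :
    ∫ y in (z - δ)..(z + δ), g y ≤ ∫ y, g y := by
  rw [intervalIntegral.integral_of_le (by linarith)]
  exact setIntegral_le_integral hg (Eventually.of_forall h0)

end TAU_

open TAU_

theorem p_TAU (h1 : T_KNN) (h2 : T_MAS) : T_TAU := by
  intro b C A hb hbC hmon hA hlim
  obtain ⟨k0, -, -, kI⟩ := h1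
  obtain ⟨m1, m2⟩ := h2
  set I : ℝ := ∫ v, fk v with hI
  -- the smoothed function
  have hJ : ∀ lam : ℝ, 0 < lam → Tendsto
      (fun x : ℝ => ∫ y in Set.Ioi (0 : ℝ), b y * (lam * fk (lam * (x - y)))) atTop
      (𝓝 (A * I)) := by
    intro lam hlam
    obtain ⟨n1, n2⟩ := m2 lam hlam
    have h3 := (hlim lam hlam).add (n1.const_mul A)
    rw [zero_add] at h3
    refine h3.congr fun x => ?_
    have h4 := (n2 x).1
    have h5 : Integrable fun y => b y * (lam * fk (lam * (x - y))) := integrable_mul hb hbC h4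
    have h6 : ∀ y, (b y - A) * (lam * fk (lam * (x - y))) =
        b y * (lam * fk (lam * (x - y))) - A * (lam * fk (lam * (x - y))) := fun y => by ring
    simp only [h6]
    rw [integral_sub h5.integrableOn (h4.const_mul _).integrableOn, integral_const_mul]
    ring
  have hK0 : ∀ lam : ℝ, 0 < lam → ∀ x y : ℝ, 0 ≤ lam * fk (lam * (x - y)) :=
    fun lam hlam x y => mul_nonneg hlam.le (k0 _)
  have hexp : Tendsto (fun δ : ℝ => Real.exp (2 * δ)) (𝓝[>] 0) (𝓝 1) := by
    have h3 : Continuous fun δ : ℝ => Real.exp (2 * δ) := by fun_prop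
    have h4 := h3.tendsto 0
    simp only [mul_zero, Real.exp_zero] at h4
    exact h4.mono_left nhdsWithin_le_nhds
  refine tendsto_order.2 ⟨fun a ha => ?_, fun a ha => ?_⟩
  · -- lower bound
    have h3 : ∀ᶠ δ : ℝ in 𝓝[>] 0, a * Real.exp (2 * δ) < A := by
      have h4 := hexp.const_mul a
      rw [mul_one] at h4
      exact h4.eventually (gt_mem_nhds ha)
    obtain ⟨δ, hδ1, hδ0⟩ := (h3.and self_mem_nhdsWithin).exists
    have hδ : (0 : ℝ) < δ := hδ0
    have h5 : a * Real.exp (2 * δ) * I < A * I := mul_lt_mul_of_pos_right hδ1 kI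
    have h6 : Tendsto (fun T : ℝ => a * Real.exp (2 * δ) * I +
        C * (I - ∫ v in (-T)..T, fk v)) atTop (𝓝 (a * Real.exp (2 * δ) * I)) := by
      have h7 := ((m1.const_sub I).const_mul C).const_add (a * Real.exp (2 * δ) * I)
      simpa using h7
    obtain ⟨T, hT1, hT0⟩ := ((h6.eventually (gt_mem_nhds h5)).and (eventually_gt_atTop 0)).exists
    set lam : ℝ := T / δ with hlam
    have hl0 : 0 < lam := div_pos hT0 hδ
    have hlT : lam * δ = T := by rw [hlam]; field_simp
    have h8 := (hJ lam hl0).comp (tendsto_atTop_add_const_right atTop (-δ) tendsto_id)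
    filter_upwards [h8.eventually (lt_mem_nhds hT1)] with x hx
    simp only [Function.comp_apply, id_eq] at hx
    obtain ⟨n1, n2, n3⟩ := (m2 lam hl0).2 (x + -δ)
    have h9 := lower hb hbC hmon (x := x) (z := x + -δ) hδ (by ring) (hK0 lam hl0 (x + -δ)) n1
    have h10 := interval_le (z := x + -δ) (hK0 lam hl0 (x + -δ)) n1 hδ
    rw [n3 δ hδ, n2, hlT] at h9
    rw [n3 δ hδ, n2, hlT] at h10
    have h11 : b x * Real.exp (2 * δ) * (∫ v in (-T)..T, fk v) ≤ b x * Real.exp (2 * δ) * I :=
      mul_le_mul_of_nonneg_left h10 (mul_nonneg (hbC x).1 (Real.exp_pos _).le)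
    have h12 : a * Real.exp (2 * δ) * I < b x * Real.exp (2 * δ) * I := by linarith
    have h13 : a * (Real.exp (2 * δ) * I) < b x * (Real.exp (2 * δ) * I) := by
      rw [← mul_assoc, ← mul_assoc]
      exact h12
    exact lt_of_mul_lt_mul_right h13 (mul_nonneg (Real.exp_pos _).le kI.le)
  · -- upper bound
    have h3 : ∀ᶠ δ : ℝ in 𝓝[>] 0, Real.exp (2 * δ) * A < a := by
      have h4 := hexp.mul_const A
      rw [one_mul] at h4
      exact h4.eventually (gt_mem_nhds ha)
    obtain ⟨δ, hδ1, hδ0⟩ := (h3.and self_mem_nhdsWithin).exists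
    have hδ : (0 : ℝ) < δ := hδ0
    have h5 : Real.exp (2 * δ) * (A * I) < a * I := by
      rw [← mul_assoc]
      exact mul_lt_mul_of_pos_right hδ1 kI
    have h6 : Tendsto (fun T : ℝ => a * ∫ v in (-T)..T, fk v) atTop (𝓝 (a * I)) := m1.const_mul a
    obtain ⟨T, hT1, hT2, hT0⟩ := ((h6.eventually (lt_mem_nhds h5)).and
      ((m1.eventually (lt_mem_nhds kI)).and (eventually_gt_atTop 0))).exists
    set lam : ℝ := T / δ with hlam
    have hl0 : 0 < lam := div_pos hT0 hδ
    have hlT : lam * δ = T := by rw [hlam]; field_simp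
    have h8 := ((hJ lam hl0).comp (tendsto_atTop_add_const_right atTop δ tendsto_id)).const_mul
      (Real.exp (2 * δ))
    filter_upwards [h8.eventually (gt_mem_nhds hT1), eventually_ge_atTop 0] with x hx hx0
    simp only [Function.comp_apply, id_eq] at hx
    obtain ⟨n1, n2, n3⟩ := (m2 lam hl0).2 (x + δ)
    have h9 := upper hb hbC hmon (x := x) (z := x + δ) hδ hx0 rfl (hK0 lam hl0 (x + δ)) n1
    rw [n3 δ hδ, hlT] at h9
    exact lt_of_mul_lt_mul_right (h9.trans_lt hx) hT2.le

end SLW
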